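import Pool.Agent.H30.FXL.Conv

/-!
# Functorial exchange-ring liftings of simplicial monoids along embeddings

There is a functor `Ψ` from the category `𝒮` of simplicial monoids with order-unit and normalized
embeddings to the category of exchange rings with `V ∘ Ψ ≅ id`.
-/

open FXL

namespace Pool.Agent.Results.MP_8d5706_al.FunctorialLifting

/-- **Theorem** (positive answer to Q1). There is a functor `(R, F)` from the category of simplicial
monoids with order-unit and normalized embeddings to the category of exchange rings such that
`V ∘ R` is naturally isomorphic (by `θ`) to the inclusion functor into commutative monoids. -/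
theorem result : ∃ (R : SimpMon → Type) (_ : ∀ M, NonUnitalRing (R M))
    (F : (M N : SimpMon) → (M.carrier → N.carrier) → R M → R N)
    (θ : (M : SimpMon) → (ℕ → ℕ → R M) → M.carrier), IsFunctor R F ∧ IsNatIso R F θ :=
  FXL.main

end Pool.Agent.Results.MP_8d5706_al.FunctorialLifting
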